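import Pool.Agent.W434.BW.StmC

/-!
Project BW (helper434), frozen S03133 of MP_d14a7e_al: part BW-TAU (helper654).
-/

set_option autoImplicit false

namespace Pool.Agent.W654.BW

open Pool.Agent.W434.BW

variable {Ω : Type} {ar : Ω → ℕ}

/-- the terms `τ_i` -/
def tm (u : Tm ar (Fin 3)) : ℕ → Tm ar (Fin 2)
  | 0 => .var 1
  | i + 1 => u.bind ![.var 0, .var 0, tm u i]

theorem tm_succ {X : Type} (a : Alg ar X) (u : Tm ar (Fin 3)) (i : ℕ) (x y : X) :
    (tm u (i + 1)).ev a ![x, y] = u.ev a ![x, x, (tm u i).ev a ![x, y]] := by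
  show (u.bind ![.var 0, .var 0, tm u i]).ev a ![x, y] = _
  rw [ev_bind]
  congr 1
  funext v
  fin_cases v <;> rfl

theorem tau : S_tau := by
  intro Ω ar Q _ q u _ γ hid hbij hadd hu
  have h3 : ∀ x, γ x + γ x + γ x = x := by
    intro x
    rw [← hu x x x]
    have h := ev_idem hid u x
    have e : (fun _ : Fin 3 => x) = ![x, x, x] := by
      funext v; fin_cases v <;> rfl
    rwa [e] at h
  have h0 : γ 0 = 0 := by
    have h := hadd 0 0
    rw [add_zero] at h
    exact left_eq_add.1 h
  have hneg : ∀ x, γ (-x) = -γ x := by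
    intro x
    have h := hadd (-x) x
    rw [neg_add_cancel, h0] at h
    exact eq_neg_of_add_eq_zero_left h.symm
  have hit : ∀ (i : ℕ) (x y : Q), (tm u i).ev q ![x, y] = x + γ^[i] (y - x) := by
    intro i x y
    induction i with
    | zero =>
      show y = x + (y - x)
      abel
    | succ i ih =>
      rw [tm_succ, hu, ih, Function.iterate_succ_apply', hadd x]
      have := h3 x
      calc γ x + γ x + (γ x + γ (γ^[i] (y - x))) = γ x + γ x + γ x + γ (γ^[i] (y - x)) := by abel
        _ = x + γ (γ^[i] (y - x)) := by rw [this]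
  obtain ⟨m, hm, hγ⟩ : ∃ m : ℕ, 0 < m ∧ ∀ x, γ^[m] x = x := by
    set e : Equiv.Perm Q := Equiv.ofBijective γ hbij with he
    refine ⟨orderOf e, orderOf_pos e, fun x => ?_⟩
    have h1 : (e ^ orderOf e) x = x := by rw [pow_orderOf_eq_one]; rfl
    have h2 : ⇑e = γ := rfl
    rw [← h2, ← Equiv.Perm.coe_pow]
    exact h1
  refine ⟨tm u m, fun x y => ?_, ?_⟩
  · rw [hit, hγ]
    abel
  · intro A a C P hCP _ _ hC x hx y hy
    have hP : ∀ i, (tm u i).ev a ![x, y] ∈ P ∧ (0 < i → (tm u i).ev a ![x, y] ∈ C) := by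
      intro i
      induction i with
      | zero => exact ⟨hy, fun h => absurd h (lt_irrefl _)⟩
      | succ i ih =>
        rw [tm_succ]
        have := hC x hx _ ih.1
        exact ⟨hCP this, fun _ => this⟩
    exact (hP m).2 hm

end Pool.Agent.W654.BW
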